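import Pool.Agent.RS.StmtsT

/-!
# Row GDE of squad RS: the derivations of the ring of bounded germs have degree `-1`
-/

set_option autoImplicit false

namespace Pool.Agent.RS.H46

open MvPolynomial Pool.Agent.RS

lemma eq_C_of_pderiv {E : Type} [Field E] [CharZero E] (f : MvPolynomial ℕ E)
    (h : ∀ i, pderiv i f = 0) : f = C (coeff 0 f) := by
  ext m
  rw [coeff_C]
  split_ifs with hm
  · rw [hm]
  · obtain ⟨i, hi⟩ : ∃ i, m i ≠ 0 := by
      by_contra hcon
      push Not at hcon
      apply hm
      ext i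
      rw [hcon i]
      rfl
    have h1 := coeff_pderiv (i := i) f (m - Finsupp.single i 1)
    rw [h i, coeff_zero] at h1
    have h2 : m - Finsupp.single i 1 + Finsupp.single i 1 = m := by
      apply tsub_add_cancel_of_le
      rw [Finsupp.single_le_iff]
      omega
    rw [h2] at h1
    have h3 : (((m - Finsupp.single i 1 : ℕ →₀ ℕ) i : ℕ) : E) + 1 ≠ 0 :=
      Nat.cast_add_one_ne_zero _
    rcases mul_eq_zero.mp h1.symm with h4 | h4
    · exact h4
    · exact absurd h4 h3

theorem gde : GdeStmt := by
  intro E _ _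
  constructor
  · intro J n f hf
    obtain ⟨F, hF, hF'⟩ := hf
    refine ⟨fun m => pderiv (J m) (F m), fun m => ?_, ?_⟩
    · have := (hF m).pderiv (i := J m)
      simpa using this
    · show dAS E J (f : AS E) = _
      rw [hF', dAS_gm]
  · intro f hf
    obtain ⟨a, F, D, hF, rfl⟩ := f
    classical
    set J : ℕ → ℕ := fun n => if h : ∃ i, pderiv i (F n) ≠ 0 then h.choose else 0 with hJ
    have h1 := congrArg Subtype.val (hf J)
    have h2 : gm E (fun n => pderiv (J n) (F n)) = gm E (fun _ => 0) := h1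
    have h3 : ∀ᶠ n in (uf : Filter ℕ), pderiv (J n) (F n) = 0 := Filter.Germ.coe_eq.mp h2
    refine ⟨fun n => C (coeff 0 (F n)), fun n => isHomogeneous_C _ _, ?_⟩
    show gm E F = _
    apply Filter.Germ.coe_eq.mpr
    filter_upwards [h3] with n hn
    apply eq_C_of_pderiv
    intro i
    by_contra hi
    have h4 : ∃ i, pderiv i (F n) ≠ 0 := ⟨i, hi⟩
    have h5 : J n = h4.choose := by rw [hJ]; simp only [dif_pos h4]
    rw [h5] at hn
    exact h4.choose_spec hn

end Pool.Agent.RS.H46
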